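import Pool.Agent.H61.CMC.TargetsE1
import Pool.Agent.Ratios.Contour

/-! Stage 2, row E1_KSG: the line of integration of the kernel of an admissible factor. -/

set_option autoImplicit false

open MeasureTheory Set Filter NumberField NumberField.InfinitePlace NumberField.Units
  NumberField.Units.dirichletUnitTheorem Pool.Agent.H65.CM4 Pool.Agent.H65.CMC Pool.Agent.H25.HK
  Pool.Agent.H61.CM4 Pool.Agent.H61.CMC
open scoped Real

namespace Pool.Agent.H77.CMC1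

/-- the integrand -/
noncomputable def Fg (G : ℂ → ℂ) (s r w : ℂ) : ℂ :=
  G w * (Complex.exp ((w - s) ^ 2) / (w - s)) * r ^ (-w)

theorem expb (j : ℕ) (τ t : ℝ) :
    (1 + |τ|) ^ j * Real.exp (-(τ - t) ^ 2) * Real.exp (π * |τ|) ≤
      ((j.factorial : ℝ) * Real.exp (1 + (π + 2) * |t| + (π + 2) ^ 2 / 2)) *
        Real.exp (-(1 * |τ|)) := by
  have hp := Real.pi_pos
  have h1 : (1 + |τ|) ^ j ≤ (j.factorial : ℝ) * Real.exp (1 + |τ|) := by
    have h2 := Real.pow_div_factorial_le_exp (1 + |τ|) (by positivity) j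
    rw [div_le_iff₀ (by positivity)] at h2
    linarith
  have h3 : |τ| ≤ |τ - t| + |t| := by
    have := abs_add_le (τ - t) t
    rwa [sub_add_cancel] at this
  have h4 : (π + 2) * |τ - t| ≤ (π + 2) ^ 2 / 2 + (τ - t) ^ 2 / 2 := by
    have := sq_nonneg (π + 2 - |τ - t|)
    have h5 := sq_abs (τ - t)
    nlinarith
  have h6 : 1 + |τ| + -(τ - t) ^ 2 + π * |τ| ≤
      1 + (π + 2) * |t| + (π + 2) ^ 2 / 2 + -(1 * |τ|) := by
    have h7 : (π + 2) * |τ| ≤ (π + 2) * (|τ - t| + |t|) :=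
      mul_le_mul_of_nonneg_left h3 (by linarith)
    have h8 := sq_nonneg (τ - t)
    nlinarith
  have e3 : Real.exp (1 + |τ|) * Real.exp (-(τ - t) ^ 2) * Real.exp (π * |τ|) =
      Real.exp (1 + |τ| + -(τ - t) ^ 2 + π * |τ|) := by
    rw [← Real.exp_add, ← Real.exp_add]
  calc (1 + |τ|) ^ j * Real.exp (-(τ - t) ^ 2) * Real.exp (π * |τ|) ≤
        (j.factorial : ℝ) * Real.exp (1 + |τ|) * Real.exp (-(τ - t) ^ 2) *
          Real.exp (π * |τ|) := by gcongr
    _ = (j.factorial : ℝ) * Real.exp (1 + |τ| + -(τ - t) ^ 2 + π * |τ|) := by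
        rw [← e3]; ring
    _ ≤ (j.factorial : ℝ) * Real.exp (1 + (π + 2) * |t| + (π + 2) ^ 2 / 2 + -(1 * |τ|)) :=
        mul_le_mul_of_nonneg_left (Real.exp_le_exp.2 h6) (by positivity)
    _ = _ := by rw [Real.exp_add _ (-(1 * |τ|))]; ring

/-- the Gaussian factor -/
theorem gauss_le (s w : ℂ) (b : ℝ) (hs : |s.re| ≤ 3) (hw0 : 0 < w.re) (hwb : w.re ≤ b) :
    ‖Complex.exp ((w - s) ^ 2)‖ ≤
      Real.exp ((b + 3) ^ 2) * Real.exp (-(w.im - s.im) ^ 2) := by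
  rw [Complex.norm_exp, ← Real.exp_add]
  refine Real.exp_le_exp.2 ?_
  have e : ((w - s) ^ 2).re = (w.re - s.re) ^ 2 - (w.im - s.im) ^ 2 := by
    rw [sq, Complex.mul_re, Complex.sub_re, Complex.sub_im]; ring
  rw [e]
  obtain ⟨h1, h2⟩ := abs_le.1 hs
  nlinarith

/-- the power -/
theorem pow_le' (r w : ℂ) (a b : ℝ) (hr : r ≠ 0) (hwa : a ≤ w.re) (hwb : w.re ≤ b) :
    ‖r ^ (-w)‖ ≤ (‖r‖ ^ (-a) + ‖r‖ ^ (-b)) * Real.exp (π * |w.im|) := by
  have hn : 0 < ‖r‖ := norm_pos_iff.2 hr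
  have p1 := Real.rpow_nonneg hn.le (-a)
  have p2 := Real.rpow_nonneg hn.le (-b)
  have h3 : ‖r‖ ^ (-w.re) ≤ ‖r‖ ^ (-a) + ‖r‖ ^ (-b) := by
    rcases le_or_gt 1 ‖r‖ with h4 | h4
    · have := Real.rpow_le_rpow_of_exponent_le h4 (neg_le_neg hwa)
      linarith
    · have := Real.rpow_le_rpow_of_exponent_ge hn h4.le (neg_le_neg hwb)
      linarith
  rw [Complex.norm_cpow_of_ne_zero hr, Complex.neg_re, Complex.neg_im, div_eq_mul_inv,
    ← Real.exp_neg]
  have h5 : -(r.arg * -w.im) ≤ π * |w.im| := by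
    have h6 : r.arg * w.im ≤ |r.arg| * |w.im| := by
      rw [← abs_mul]; exact le_abs_self _
    have h7 := mul_le_mul_of_nonneg_right (Complex.abs_arg_le_pi r) (abs_nonneg w.im)
    linarith
  exact mul_le_mul h3 (Real.exp_le_exp.2 h5) (Real.exp_pos _).le (by linarith)

theorem fg_bound (G : ℂ → ℂ) (hG : HG G) (s r : ℂ) (a b : ℝ) (ha : 0 < a) (hs : |s.re| ≤ 3)
    (hsa : s.re < a) (hr : r ≠ 0) :
    ∃ C : ℝ, ∀ w : ℂ, a ≤ w.re → w.re ≤ b → ‖Fg G s r w‖ ≤ C * Real.exp (-(1 * |w.im|)) := by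
  obtain ⟨C0, j, hC0, hC⟩ := hG.2 b
  have hn : 0 < ‖r‖ := norm_pos_iff.2 hr
  have p1 := Real.rpow_nonneg hn.le (-a)
  have p2 := Real.rpow_nonneg hn.le (-b)
  refine ⟨(a - s.re)⁻¹ * (C0 * Real.exp ((b + 3) ^ 2) * (‖r‖ ^ (-a) + ‖r‖ ^ (-b)) *
    ((j.factorial : ℝ) * Real.exp (1 + (π + 2) * |s.im| + (π + 2) ^ 2 / 2))), ?_⟩
  intro w hwa hwb
  have hw0 : 0 < w.re := lt_of_lt_of_le ha hwa
  have hd : 0 < a - s.re := by linarith
  have e1 : Fg G s r w = (w - s)⁻¹ * (G w * Complex.exp ((w - s) ^ 2) * r ^ (-w)) := by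
    unfold Fg
    rw [div_eq_mul_inv]; ring
  have h2 : a - s.re ≤ ‖w - s‖ := by
    have := Complex.re_le_norm (w - s)
    rw [Complex.sub_re] at this
    linarith
  have h7 : ‖G w * Complex.exp ((w - s) ^ 2) * r ^ (-w)‖ ≤
      C0 * Real.exp ((b + 3) ^ 2) * (‖r‖ ^ (-a) + ‖r‖ ^ (-b)) *
        (((j.factorial : ℝ) * Real.exp (1 + (π + 2) * |s.im| + (π + 2) ^ 2 / 2)) *
          Real.exp (-(1 * |w.im|))) := by
    rw [norm_mul, norm_mul]
    calc ‖G w‖ * ‖Complex.exp ((w - s) ^ 2)‖ * ‖r ^ (-w)‖ ≤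
          (C0 * (1 + |w.im|) ^ j) * (Real.exp ((b + 3) ^ 2) * Real.exp (-(w.im - s.im) ^ 2)) *
            ((‖r‖ ^ (-a) + ‖r‖ ^ (-b)) * Real.exp (π * |w.im|)) := by
          refine mul_le_mul (mul_le_mul (hC w hw0 hwb) (gauss_le s w b hs hw0 hwb)
            (norm_nonneg _) (by positivity)) (pow_le' r w a b hr hwa hwb) (norm_nonneg _)
            (by positivity)
      _ = C0 * Real.exp ((b + 3) ^ 2) * (‖r‖ ^ (-a) + ‖r‖ ^ (-b)) *
          ((1 + |w.im|) ^ j * Real.exp (-(w.im - s.im) ^ 2) * Real.exp (π * |w.im|)) := by ring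
      _ ≤ _ := mul_le_mul_of_nonneg_left (expb j w.im s.im) (by positivity)
  rw [e1, norm_mul, norm_inv]
  refine (mul_le_mul (inv_anti₀ hd h2) h7 (norm_nonneg _) (inv_nonneg.2 hd.le)).trans
    (le_of_eq ?_)
  ring

theorem fg_diff (G : ℂ → ℂ) (hG : HG G) (s r w : ℂ) (hw : 0 < w.re) (hws : s.re < w.re)
    (hr : r ≠ 0) : DifferentiableAt ℂ (Fg G s r) w := by
  have h1 := hG.1 w hw
  have hne : w - s ≠ 0 := by
    intro h
    rw [sub_eq_zero.1 h] at hws
    exact lt_irrefl _ hws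
  unfold Fg
  refine DifferentiableAt.mul (DifferentiableAt.mul h1
    (DifferentiableAt.div ?_ ?_ hne)) ?_
  · fun_prop
  · fun_prop
  · exact DifferentiableAt.const_cpow (by fun_prop) (Or.inl hr)

theorem pf_KSG : T_KSG := by
  intro G hG s r c hs1 hs2 hsc hc hr
  have hr0 : r ≠ 0 := Complex.slitPlane_ne_zero hr
  have hs : |s.re| ≤ 3 := abs_le.2 ⟨hs1, by linarith⟩
  have hline : Integrable (fun t : ℝ => Fg G s r (c + t * Complex.I)) := by
    obtain ⟨C, hC⟩ := fg_bound G hG s r c c hc hs hsc hr0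
    have hcont : Continuous (fun t : ℝ => Fg G s r (c + t * Complex.I)) := by
      rw [continuous_iff_continuousAt]
      intro t
      have : ContinuousAt (Fg G s r) (c + t * Complex.I) :=
        (fg_diff G hG s r _ (by simpa using hc) (by simpa using hsc) hr0).continuousAt
      exact ContinuousAt.comp (f := fun t : ℝ => (c : ℂ) + t * Complex.I) this (by fun_prop)
    refine ((Pool.Agent.Ratios.integrable_exp_neg_mul_abs 1 one_pos).const_mul C).mono'
      hcont.aestronglyMeasurable ?_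
    filter_upwards with t
    have := hC (c + t * Complex.I) (by simp) (by simp)
    simpa using this
  refine ⟨hline, ?_⟩
  have hK : KG G s r = ((1 / (2 * π) : ℝ) : ℂ) *
      ∫ t : ℝ, Fg G s r (((2 : ℝ) : ℂ) + t * Complex.I) := by
    rw [Complex.ofReal_ofNat]
    rfl
  rw [hK]
  congr 1
  rcases le_total c 2 with h2 | h2
  · obtain ⟨C, hC⟩ := fg_bound G hG s r c 2 hc hs hsc hr0
    exact Pool.Agent.Ratios.integral_vertical_shift (Fg G s r) c 2 h2 C 1 one_pos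
      (fun z hz1 hz2 => fg_diff G hG s r z (by linarith) (by linarith) hr0) hC
  · obtain ⟨C, hC⟩ := fg_bound G hG s r 2 c two_pos hs hs2 hr0
    exact (Pool.Agent.Ratios.integral_vertical_shift (Fg G s r) 2 c h2 C 1 one_pos
      (fun z hz1 hz2 => fg_diff G hG s r z (by linarith) (by linarith) hr0) hC).symm

end Pool.Agent.H77.CMC1
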