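import Pool.Agent.H61.CMC.TargetsE1
import Pool.Agent.H12.RC.GS
import Pool.Agent.H16.HK.PS
import Pool.Agent.H3.HK.GA

/-! Stage 2, row E1_PSE: Poisson summation for Gaussians with an isotropic linear term. -/

set_option autoImplicit false

open MeasureTheory Set Filter NumberField NumberField.InfinitePlace NumberField.Units
  NumberField.Units.dirichletUnitTheorem Pool.Agent.H65.CM4 Pool.Agent.H65.CMC Pool.Agent.H25.HK
  Pool.Agent.H61.CM4 Pool.Agent.H61.CMC
open scoped Real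

namespace Pool.Agent.H77.CMC1

section

variable {J : Type} [Fintype J]

/-- the coefficients of the linear form -/
noncomputable def Lf (e : J → ℝ) (μ : J → ℂ) (i : J × Fin 2) : ℂ :=
  if i.2 = 0 then μ i.1 else μ i.1 * Complex.I * ((e i.1 : ℝ) : ℂ)

theorem sum_zc (e : J → ℝ) (μ : J → ℂ) (p : J × Fin 2 → ℝ) :
    ∑ v, μ v * zc e p v = ∑ i, Lf e μ i * (p i : ℂ) := by
  rw [Fintype.sum_prod_type]
  refine Finset.sum_congr rfl fun v _ => ?_
  rw [Fin.sum_univ_two]
  simp only [Lf, zc, if_true, Fin.isValue, one_ne_zero, if_false]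
  push_cast
  ring

omit [Fintype J] in
theorem norm_Lf (e : J → ℝ) (μ : J → ℂ) (he : ∀ v, e v = 1 ∨ e v = -1) (i : J × Fin 2) :
    ‖Lf e μ i‖ = ‖μ i.1‖ := by
  unfold Lf
  split_ifs
  · rfl
  · rw [norm_mul, norm_mul, Complex.norm_I, Complex.norm_real]
    rcases he i.1 with h | h <;> simp [h]

/-- the norm of an exponential of a linear form -/
theorem norm_lin {ι : Type} [Fintype ι] (c : ι → ℂ) (R : ℝ) (hc : ∀ i, ‖c i‖ ≤ R) (p : ι → ℝ) :
    ‖Complex.exp (∑ i, c i * (p i : ℂ))‖ ≤ Real.exp (R * ∑ i, |p i|) := by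
  rw [Complex.norm_exp]
  refine Real.exp_le_exp.2 ?_
  refine (Complex.re_le_norm _).trans ((norm_sum_le _ _).trans ?_)
  rw [Finset.mul_sum]
  refine Finset.sum_le_sum fun i _ => ?_
  rw [norm_mul, Complex.norm_real, Real.norm_eq_abs]
  exact mul_le_mul_of_nonneg_right (hc i) (abs_nonneg _)

/-- completing the square -/
theorem sq_sum (e : J → ℝ) (μ : J → ℂ) (he : ∀ v, e v = 1 ∨ e v = -1) (w : J × Fin 2 → ℝ) :
    (∑ i, (Lf e μ i + -(2 * (π : ℂ) * (w i : ℂ) * Complex.I)) ^ 2) / (4 * (π : ℂ)) =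
      ((-π * ∑ i, w i ^ 2 : ℝ) : ℂ) + ∑ v, μ v * (-Complex.I * zc e w v) := by
  have hpi : (π : ℂ) ≠ 0 := Complex.ofReal_ne_zero.2 Real.pi_ne_zero
  rw [div_eq_iff (mul_ne_zero (by norm_num) hpi)]
  rw [Fintype.sum_prod_type, Fintype.sum_prod_type]
  push_cast
  rw [Finset.mul_sum, ← Finset.sum_add_distrib, Finset.sum_mul]
  refine Finset.sum_congr rfl fun v _ => ?_
  rw [Fin.sum_univ_two, Fin.sum_univ_two]
  simp only [Lf, zc, if_true, Fin.isValue, one_ne_zero, if_false]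
  have h2 : ((e v : ℝ) : ℂ) ^ 2 = 1 := by
    rcases he v with h | h <;> simp [h]
  have hI : Complex.I ^ 2 = -1 := Complex.I_sq
  push_cast
  linear_combination (Complex.I ^ 2 * (μ v) ^ 2) * h2 +
    ((μ v) ^ 2 + 4 * (π : ℂ) ^ 2 * ((w (v, 0) : ℂ) ^ 2 + (w (v, 1) : ℂ) ^ 2)
      + 0) * hI

end

theorem pf_PSE (hGAS : T_GAS) : T_PSE := by
  intro J _ _ A e μ hA he
  have hpi0 : (π : ℂ) ≠ 0 := Complex.ofReal_ne_zero.2 Real.pi_ne_zero
  have hpi : (0 : ℝ) < ((π : ℝ) : ℂ).re := by simpa using Real.pi_pos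
  have hAu : IsUnit A.det := hA.isUnit
  set R : ℝ := ∑ v, ‖μ v‖ with hR
  have hR0 : 0 ≤ R := Finset.sum_nonneg fun v _ => norm_nonneg _
  have hL : ∀ i, ‖Lf e μ i‖ ≤ R := by
    intro i
    rw [norm_Lf e μ he i]
    exact Finset.single_le_sum (f := fun v => ‖μ v‖) (fun v _ => norm_nonneg _)
      (Finset.mem_univ i.1)
  -- the function
  set F : (J × Fin 2 → ℝ) → ℂ := fun p => Complex.exp (-(π : ℂ) * ∑ i, (p i : ℂ) ^ 2 +
    ∑ i, Lf e μ i * (p i : ℂ)) with hF
  set f : (J × Fin 2 → ℝ) → ℂ := fun x => F (A.mulVec x) with hf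
  have hFe : ∀ p, F p = ((Real.exp (-π * ∑ i, (p i) ^ 2) : ℝ) : ℂ) *
      Complex.exp (∑ i, Lf e μ i * (p i : ℂ)) := by
    intro p
    rw [hF, Complex.ofReal_exp, ← Complex.exp_add]
    push_cast
    rfl
  have hFn : ∀ p, ‖F p‖ ≤ Real.exp (-π * ∑ i, (p i) ^ 2) * Real.exp (R * ∑ i, |p i|) := by
    intro p
    rw [hFe, norm_mul, Complex.norm_real, Real.norm_of_nonneg (Real.exp_nonneg _)]
    exact mul_le_mul_of_nonneg_left (norm_lin _ R hL p) (Real.exp_nonneg _)
  have hFi : Integrable F :=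
    GaussianFourier.integrable_cexp_neg_mul_sum_add (ι := J × Fin 2) hpi (Lf e μ)
  have hfc : Continuous f := by
    have hc : Continuous fun x : J × Fin 2 → ℝ => A.mulVec x := by fun_prop
    have hg : Continuous F := by
      rw [hF]
      fun_prop
    exact hg.comp hc
  have hfi : Integrable f := (Pool.Agent.H3.HK.subst A hA F hFi).1
  -- the bound
  have hA2 : ((1 / 2 : ℝ) • A).det ≠ 0 := by
    rw [Matrix.det_smul]
    positivity
  obtain ⟨B, hB, hBb⟩ := Pool.Agent.H12.RC.pf_GS (J × Fin 2) ((1 / 2 : ℝ) • A) ∅ hA2 0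
  have hbd : ∀ (m : J × Fin 2 → ℤ) (x : J × Fin 2 → ℝ), (∀ i, x i ∈ Icc (0 : ℝ) 1) →
      ‖f (fun i => x i + m i)‖ ≤ Real.exp (Fintype.card (J × Fin 2) * (R ^ 2 / 4)) * B m := by
    intro m x hx
    have h1 := hBb m x hx
    simp only [Pi.zero_apply, add_zero] at h1
    set q : J × Fin 2 → ℝ := A.mulVec (fun i => x i + (m i : ℝ)) with hq
    have h2 : Pool.Agent.H28.RC.gj ∅ (((1 / 2 : ℝ) • A).mulVec (fun i => x i + (m i : ℝ))) =
        Real.exp (-π * ∑ i, (q i / 2) ^ 2) := by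
      unfold Pool.Agent.H28.RC.gj
      rw [Finset.prod_empty, one_mul, Matrix.smul_mulVec]
      congr 2
      refine Finset.sum_congr rfl fun i _ => ?_
      rw [Pi.smul_apply, smul_eq_mul, ← hq]
      ring
    rw [h2, abs_of_pos (Real.exp_pos _)] at h1
    have h3 : ‖f (fun i => x i + m i)‖ ≤ Real.exp (-π * ∑ i, (q i) ^ 2) *
        Real.exp (R * ∑ i, |q i|) := hFn q
    refine h3.trans ?_
    refine le_trans ?_ (mul_le_mul_of_nonneg_left h1 (Real.exp_nonneg _))
    rw [← Real.exp_add, ← Real.exp_add]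
    refine Real.exp_le_exp.2 ?_
    have h4 : ∀ i, -π * q i ^ 2 + R * |q i| ≤ R ^ 2 / 4 + -π * (q i / 2) ^ 2 := by
      intro i
      have h5 := Real.pi_gt_three
      have h6 := sq_abs (q i)
      have h7 := sq_nonneg (|q i| - R / 2)
      have h8 : 0 ≤ (π - 3) * q i ^ 2 := mul_nonneg (by linarith) (sq_nonneg _)
      have h9 := sq_nonneg (q i)
      nlinarith
    have h5 := Finset.sum_le_sum (s := Finset.univ) fun i (_ : i ∈ Finset.univ) => h4 i
    rw [Finset.sum_add_distrib, Finset.sum_add_distrib, ← Finset.mul_sum, ← Finset.mul_sum,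
      ← Finset.mul_sum, Finset.sum_const, nsmul_eq_mul, Finset.card_univ] at h5
    exact h5
  -- the Fourier transform
  have hft : ∀ k : J × Fin 2 → ℤ,
      ∫ x : J × Fin 2 → ℝ, Complex.exp (-(2 * Real.pi * (∑ i, (k i : ℝ) * x i) : ℝ) *
        Complex.I) * f x = ((|A.det|⁻¹ : ℝ) : ℂ) *
        (((Real.exp (-π * ∑ i, (mv (A⁻¹).transpose k i) ^ 2) : ℝ) : ℂ) *
          Complex.exp (∑ v, μ v * (-Complex.I * zc e (mv (A⁻¹).transpose k) v))) := by
    intro k
    set w : J × Fin 2 → ℝ := mv (A⁻¹).transpose k with hw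
    have hkx : ∀ x : J × Fin 2 → ℝ, ∑ i, (k i : ℝ) * x i = ∑ i, w i * (A.mulVec x) i := by
      intro x
      change (fun i => (k i : ℝ)) ⬝ᵥ x = w ⬝ᵥ A.mulVec x
      rw [hw, mv, Matrix.mulVec_transpose, ← Matrix.dotProduct_mulVec, Matrix.mulVec_mulVec,
        Matrix.nonsing_inv_mul _ hAu, Matrix.one_mulVec]
    have hint := GaussianFourier.integrable_cexp_neg_mul_sum_add (ι := J × Fin 2) hpi
      (fun i => Lf e μ i + -(2 * (π : ℂ) * (w i : ℂ) * Complex.I))
    have hval := GaussianFourier.integral_cexp_neg_mul_sum_add (ι := J × Fin 2) hpi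
      (fun i => Lf e μ i + -(2 * (π : ℂ) * (w i : ℂ) * Complex.I))
    set G : (J × Fin 2 → ℝ) → ℂ := fun v => Complex.exp (-(π : ℂ) * ∑ i, (v i : ℂ) ^ 2 +
      ∑ i, (Lf e μ i + -(2 * (π : ℂ) * (w i : ℂ) * Complex.I)) * (v i : ℂ)) with hG
    have hfx : ∀ x, Complex.exp (-(2 * Real.pi * (∑ i, (k i : ℝ) * x i) : ℝ) * Complex.I) *
        f x = G (A.mulVec x) := by
      intro x
      rw [hkx, hf, hF, hG, ← Complex.exp_add]
      congr 1
      push_cast
      simp only [add_mul, Finset.sum_add_distrib, neg_mul, Finset.mul_sum, Finset.sum_mul,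
        Finset.sum_neg_distrib]
      have e1 : ∀ i, 2 * (π : ℂ) * ((w i : ℂ) * (A.mulVec x i : ℂ)) * Complex.I =
          2 * (π : ℂ) * (w i : ℂ) * Complex.I * (A.mulVec x i : ℂ) := fun i => by ring
      simp only [e1]
      ring
    obtain ⟨-, h4⟩ := Pool.Agent.H3.HK.subst A hA G hint
    rw [integral_congr_ae (Filter.Eventually.of_forall hfx), h4, hval, sq_sum e μ he w,
      div_self hpi0, Complex.one_cpow, one_mul, Complex.exp_add, ← Complex.ofReal_exp]
  have hLI : ∀ (w : J × Fin 2 → ℝ), ∑ v, μ v * (-Complex.I * zc e w v) =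
      ∑ i, (-Complex.I * Lf e μ i) * (w i : ℂ) := by
    intro w
    have h1 : ∀ v, μ v * (-Complex.I * zc e w v) = -Complex.I * (μ v * zc e w v) :=
      fun v => by ring
    simp only [h1]
    rw [← Finset.mul_sum, sum_zc, Finset.mul_sum]
    exact Finset.sum_congr rfl fun i _ => by ring
  have hdet' : ((A⁻¹).transpose).det ≠ 0 := by
    rw [Matrix.det_transpose]
    exact (Matrix.isUnit_nonsing_inv_det A hAu).ne_zero
  have hsum := hGAS J (A⁻¹).transpose R hdet'
  have key := Pool.Agent.H16.HK.ps (J × Fin 2) f _ hfc hfi hbd (hB.mul_left _) (by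
    simp only [hft]
    refine Summable.mul_left _ ?_
    refine Summable.of_norm_bounded hsum fun n => ?_
    rw [norm_mul, Complex.norm_real, Real.norm_of_nonneg (Real.exp_nonneg _), Real.exp_add, hLI]
    refine mul_le_mul_of_nonneg_left (norm_lin _ R (fun i => ?_) _) (Real.exp_nonneg _)
    rw [norm_mul, norm_neg, Complex.norm_I, one_mul]
    exact hL i)
  simp only [hft] at key
  rw [tsum_mul_left] at key
  rw [← key]
  refine tsum_congr fun n => ?_
  rw [sum_zc]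
  exact (hFe (mv A n)).symm

end Pool.Agent.H77.CMC1
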